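import Pool.Agent.H21.L.R_pool_sql_team_seeded_2aa45f1a.Q5.AP.Joint
import Pool.Agent.H21.L.R_pool_sql_team_seeded_2aa45f1a.Q5.BP.Pack

/-!
# The joint limiting logarithmic distribution of several error terms
-/

set_option autoImplicit false

open MeasureTheory Filter Topology Set Complex

namespace Pool.Agent.Q5.DC

open Pool.Agent.TH270.MS (BM)
open Pool.Agent.Q5.BP (MSq BSq)
open Pool.Agent.Q5.AP (Par cut cm joint_of joint_support)

variable {ι : Type} [Fintype ι]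

/-- `ν` is the joint limiting logarithmic distribution of the functions `log x · δ_i(x)`. -/
def IsJointLaw (δ : ι → ℝ → ℝ) (ν : Measure (ι → ℝ)) : Prop :=
  IsProbabilityMeasure ν ∧ ∀ φ : (ι → ℝ) → ℝ, Continuous φ → (∃ B : ℝ, ∀ y, |φ y| ≤ B) →
    Tendsto (fun X : ℝ =>
      (∫ x in Real.exp 1..X, φ (fun i => Real.log x * δ i x) / x) / Real.log X) atTop
      (𝓝 (∫ y, φ y ∂ν))

/-- There is a joint limiting logarithmic distribution with second moments, the limits of the mean squares. -/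
def HasJointLaw (δ : ι → ℝ → ℝ) : Prop :=
  ∃ ν : Measure (ι → ℝ), IsJointLaw δ ν ∧ ∀ i, Integrable (fun y : ι → ℝ => y i ^ 2) ν ∧
    Tendsto (fun X : ℝ => (∫ x in Real.exp 1..X, (Real.log x * δ i x) ^ 2 / x) / Real.log X) atTop
      (𝓝 (∫ y, y i ^ 2 ∂ν))

/-- There is exactly one joint limiting logarithmic distribution `ν`; its means are `0`; its covariances are
`∑_t m_i(t) m_j(t)/t²`, and they are the limits of the means of `log x · δ_i(x) · log x · δ_j(x)`; and `ν` is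
supported in the hyperplane `∑ c_i y_i = 0` if and only if `∑ c_i m_i(t) = 0` for all `t ≠ 0`. -/
def JointLaw (m : ι → ℝ → ℕ) (δ : ι → ℝ → ℝ) : Prop :=
  ∃ ν : Measure (ι → ℝ), (IsJointLaw δ ν ∧ ∀ ν' : Measure (ι → ℝ), IsJointLaw δ ν' → ν' = ν) ∧
    (∀ i, Integrable (fun y : ι → ℝ => y i ^ 2) ν) ∧ (∀ i, ∫ y, y i ∂ν = 0) ∧
    (∀ i j, HasSum (fun t : ℝ => (m i t : ℝ) * m j t / t ^ 2) (∫ y, y i * y j ∂ν) ∧
      Tendsto (fun X : ℝ =>
        (∫ x in Real.exp 1..X, (Real.log x * δ i x) * (Real.log x * δ j x) / x) / Real.log X) atTop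
        (𝓝 (∫ y, y i * y j ∂ν))) ∧
    ∀ c : ι → ℝ, (∀ᵐ y ∂ν, ∑ i, c i * y i = 0) ↔ ∀ t : ℝ, t ≠ 0 → ∑ i, c i * (m i t : ℝ) = 0

/-- **The criterion with the joint law.** -/
theorem joint_tfae {P : ι → Prop} {m : ι → ℝ → ℕ} {δ : ι → ℝ → ℝ}
    (hW : ∀ i, BM fun x => Real.log x * δ i x) (h1 : ∀ i, P i ↔ BSq (δ i))
    (h2 : ∀ i, P i → ∃ V : ℝ, HasSum (fun t : ℝ => ((m i t : ℝ) / t) ^ 2) V ∧
      Par (fun u => (cut (fun x => Real.log x * δ i x) u : ℂ)) (cm (m i)) V) :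
    List.TFAE [∀ i, P i, ∀ i, BSq (δ i), HasJointLaw δ, JointLaw m δ] := by
  tfae_have 1 ↔ 2 := forall_congr' h1
  tfae_have 1 → 4 := by
    intro h
    choose V hV hP using fun i => h2 i (h i)
    obtain ⟨ν, k1, k2, k3, k4⟩ := joint_of hW hP
    exact ⟨ν, k1, k2, k3, k4, fun c => (joint_support k2 (fun i j => (k4 i j).1) c).2⟩
  tfae_have 4 → 3 := by
    rintro ⟨ν, ⟨h1, -⟩, h2, -, h3, -⟩
    refine ⟨ν, h1, fun i => ⟨h2 i, ?_⟩⟩
    have h4 := (h3 i i).2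
    have e : ∫ y, y i * y i ∂ν = ∫ y, y i ^ 2 ∂ν := integral_congr_ae (Eventually.of_forall fun y => by
      simp only
      ring)
    rw [e] at h4
    refine h4.congr fun X => ?_
    congr 2
    funext x
    ring
  tfae_have 3 → 2 := by
    rintro ⟨ν, -, h3⟩ i
    refine ⟨(∫ y, y i ^ 2 ∂ν) + 1, ?_⟩
    filter_upwards [(h3 i).2.eventually
      (gt_mem_nhds (show ∫ y, y i ^ 2 ∂ν < (∫ y, y i ^ 2 ∂ν) + 1 by linarith)),
      eventually_gt_atTop 1] with X hX hX1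
    rw [div_lt_iff₀ (Real.log_pos hX1)] at hX
    exact hX.le
  tfae_finish

end Pool.Agent.Q5.DC
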