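import Pool.Agent.H21.L.R_seed8.TH270.MS.QSys
import Pool.Agent.H21.L.R_pool_sql_team_seeded_2aa45f1a.Q5.VA.Dat
import Pool.Agent.H21.L.R_pool_sql_team_seeded_2aa45f1a.Q5.BP.Pack
import Pool.Agent.H21.L.R_pool_sql_team_seeded_2aa45f1a.Q5.AP.Bridge

/-!
# `L`-functions of motives over `ℚ` of odd weight at the centre, in the form of the mean square theorems

`α p j` are the reciprocal roots of the Euler factor at `p`, `‖α p j‖ ≤ p^(m - 1/2)`, with real power sums; `m` is the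
central point.
-/

set_option autoImplicit false

open MeasureTheory Filter Topology Set Complex

namespace Pool.Agent.Q5.DC

open Pool.Agent.TH942.ES (Sys zv xv cv cP LE)
open Pool.Agent.TH270.MS (Pl Mc DvR q_sys BM)
open Pool.Agent.Q5.MS (Pv Sq bm_dvR)
open Pool.Agent.Q5.BP (MSq FB BSq DvP bm_log bm_dvP)
open Pool.Agent.Q5.AP (Par cut cm par_of_cm)

variable {n : ℕ} {m : ℤ} {α : Nat.Primes → Fin n → ℂ} {F : ℂ → ℂ}

/-- the norms -/
def nP : Nat.Primes → ℕ := fun p => p.1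

/-- the normalised roots -/
noncomputable def aM (m : ℤ) (α : Nat.Primes → Fin n → ℂ) (p : Nat.Primes) (j : Fin n) : ℂ :=
  α p j / (((p : ℝ) ^ ((m : ℝ) - 1 / 2) : ℝ) : ℂ)

theorem two_le (p : Nat.Primes) : (2 : ℝ) ≤ (p : ℝ) := by exact_mod_cast p.2.two_le

theorem zM_eq (p : Nat.Primes) (j : Fin n) :
    zv nP (aM m α) p j = α p j * (((p : ℝ) ^ (-(m : ℝ)) : ℝ) : ℂ) := by
  have hq : (0 : ℝ) < p := by linarith [two_le p]
  unfold zv aM nP
  have e : ((p : ℕ) : ℝ) = ((p.1 : ℕ) : ℝ) := rfl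
  rw [← e, div_div, ← Complex.ofReal_mul, Real.sqrt_eq_rpow, ← Real.rpow_add hq, div_eq_mul_inv,
    ← Complex.ofReal_inv, ← Real.rpow_neg hq.le]
  congr 4
  ring

theorem cpow_eq (m : ℤ) (p : Nat.Primes) :
    (((p : ℝ) ^ (-(m : ℝ)) : ℝ) : ℂ) = (p : ℂ) ^ (-m) := by
  have hq : (0 : ℝ) < p := by linarith [two_le p]
  rw [← Int.cast_neg, Real.rpow_intCast]
  push_cast
  rfl

/-- the conditions on the roots -/
structure Roots (m : ℤ) (α : Nat.Primes → Fin n → ℂ) : Prop where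
  le : ∀ p j, ‖α p j‖ ≤ (p : ℝ) ^ ((m : ℝ) - 1 / 2)
  real : ∀ p (k : ℕ), (∑ j, α p j ^ k).im = 0

namespace Roots

variable (R : Roots m α)
include R

theorem norm_le (p : Nat.Primes) (j : Fin n) : ‖aM m α p j‖ ≤ 1 := by
  have hq : (0 : ℝ) < p := by linarith [two_le p]
  have h0 : 0 < (p : ℝ) ^ ((m : ℝ) - 1 / 2) := Real.rpow_pos_of_pos hq _
  unfold aM
  rw [norm_div, Complex.norm_real, Real.norm_of_nonneg h0.le, div_le_one h0]
  exact R.le p j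

theorem real_z (p : Nat.Primes) (k : ℕ) : (∑ j, zv nP (aM m α) p j ^ k).im = 0 := by
  have h1 : ∑ j, zv nP (aM m α) p j ^ k =
      (∑ j, α p j ^ k) * ((((p : ℝ) ^ (-(m : ℝ))) ^ k : ℝ) : ℂ) := by
    rw [Finset.sum_mul]
    refine Finset.sum_congr rfl fun j _ => ?_
    rw [zM_eq, mul_pow, Complex.ofReal_pow]
  rw [h1, Complex.im_mul_ofReal, R.real, zero_mul]

theorem norm_z (p : Nat.Primes) (j : Fin n) : ‖zv nP (aM m α) p j‖ < 1 := by
  have hq : (2 : ℝ) ≤ p := two_le p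
  unfold zv
  have h1 : (1 : ℝ) < √((nP p : ℕ) : ℝ) := by
    rw [Real.lt_sqrt zero_le_one]
    have : ((nP p : ℕ) : ℝ) = (p : ℝ) := rfl
    rw [this]
    linarith
  rw [norm_div, Complex.norm_real, Real.norm_of_nonneg (by positivity), div_lt_one (by linarith)]
  exact (R.norm_le p j).trans_lt h1

theorem log_im (p : Nat.Primes) : (∑ j, log (1 - zv nP (aM m α) p j)).im = 0 := by
  have h1 : HasSum (fun k : ℕ => ∑ j, zv nP (aM m α) p j ^ k / k)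
      (∑ j, -log (1 - zv nP (aM m α) p j)) :=
    hasSum_sum fun j _ => hasSum_taylorSeries_neg_log (R.norm_z p j)
  have h2 := hasSum_im h1
  have h3 : ∀ k : ℕ, (∑ j, zv nP (aM m α) p j ^ k / (k : ℂ)).im = 0 := by
    intro k
    rw [← Finset.sum_div]
    have : (∑ j, zv nP (aM m α) p j ^ k) / (k : ℂ) =
        (∑ j, zv nP (aM m α) p j ^ k) * (((k : ℝ)⁻¹ : ℝ) : ℂ) := by
      rw [div_eq_mul_inv]
      push_cast
      rfl
    rw [this, Complex.im_mul_ofReal, R.real_z, zero_mul]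
  simp only [h3] at h2
  have h4 := h2.unique hasSum_zero
  rw [Finset.sum_neg_distrib, Complex.neg_im, neg_eq_zero] at h4
  exact h4

/-- the Euler system -/
theorem sys : Sys nP (aM m α) := q_sys Nat.Prime (fun _ h => h) (aM m α) R.norm_le fun p => R.log_im p

/-- the logarithm of the local factor -/
theorem cv_eq (p : Nat.Primes) :
    cv nP (aM m α) p = Real.log ‖∏ j, (1 - α p j * (p : ℂ) ^ (-m))‖ := by
  have hne : ∀ j, 1 - α p j * (p : ℂ) ^ (-m) ≠ 0 := by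
    intro j h0
    have h1 := R.norm_z p j
    rw [zM_eq, cpow_eq, ← sub_eq_zero.1 h0, norm_one] at h1
    exact lt_irrefl _ h1
  unfold cv
  rw [norm_prod, Real.log_prod (fun j _ => norm_ne_zero_iff.2 (hne j)), Complex.re_sum]
  refine Finset.sum_congr rfl fun j _ => ?_
  rw [zM_eq, cpow_eq, Complex.log_re]

theorem fac_pos (p : Nat.Primes) : 0 < ‖∏ j, (1 - α p j * (p : ℂ) ^ (-m))‖ := by
  rw [norm_pos_iff, Finset.prod_ne_zero_iff]
  intro j _ h0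
  have h1 := R.norm_z p j
  rw [zM_eq, cpow_eq, ← sub_eq_zero.1 h0, norm_one] at h1
  exact lt_irrefl _ h1

end Roots

/-- the terms of the sum over the prime powers -/
theorem cP_M (z : Nat.Primes × ℕ) : cP nP (aM m α) z =
    (∑ j, α z.1 j ^ (z.2 + 1)).re / (((z.2 : ℝ) + 1) * ((z.1 : ℝ) ^ m) ^ (z.2 + 1)) := by
  have hq : (0 : ℝ) < z.1 := by linarith [two_le z.1]
  have h0 : 0 < (z.1 : ℝ) ^ m := zpow_pos hq _
  have h1 : ∑ j, zv nP (aM m α) z.1 j ^ (z.2 + 1) =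
      (∑ j, α z.1 j ^ (z.2 + 1)) * (((((z.1 : ℝ) ^ m) ^ (z.2 + 1))⁻¹ : ℝ) : ℂ) := by
    rw [Finset.sum_mul]
    refine Finset.sum_congr rfl fun j _ => ?_
    rw [zM_eq, mul_pow, Real.rpow_neg hq.le, Real.rpow_intCast, ← Complex.ofReal_pow, inv_pow]
  unfold cP
  rw [h1, Complex.re_mul_ofReal]
  field_simp

/-- the local factors -/
theorem factorM (p : Nat.Primes) (s : ℂ) :
    ∏ j, (1 - zv nP (aM m α) p j * xv nP p (s - ((m : ℝ) : ℂ)))⁻¹ =
      (∏ j, (1 - α p j * (p : ℂ) ^ (-s)))⁻¹ := by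
  have hq : (0 : ℝ) < p := by linarith [two_le p]
  have hqc : (p : ℂ) ≠ 0 := by exact_mod_cast hq.ne'
  rw [Finset.prod_inv_distrib]
  congr 1
  refine Finset.prod_congr rfl fun j _ => ?_
  rw [zM_eq, mul_assoc]
  congr 2
  have h1 : xv nP p (s - ((m : ℝ) : ℂ)) = (p : ℂ) ^ (-(s - ((m : ℝ) : ℂ))) := by
    unfold xv
    have e : ((nP p : ℕ) : ℝ) = (p : ℝ) := rfl
    rw [e, Complex.cpow_def_of_ne_zero hqc, ← Complex.ofReal_natCast, ← Complex.ofReal_log hq.le]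
    congr 1
    ring
  have h2 : (((p : ℝ) ^ (-(m : ℝ)) : ℝ) : ℂ) = (p : ℂ) ^ (-((m : ℝ) : ℂ)) := by
    rw [Complex.ofReal_cpow hq.le]
    push_cast
    rfl
  rw [h1, h2, ← Complex.cpow_add _ _ hqc]
  congr 1
  ring

/-- `F` continues the Euler product to a half plane `Re s > m - η`, holomorphic of polynomial growth -/
structure Temp (m : ℤ) (α : Nat.Primes → Fin n → ℂ) (F : ℂ → ℂ) : Prop where
  cont : ∃ (η C : ℝ) (κ : ℕ), 0 < η ∧
    ∀ s : ℂ, m - η < s.re → DifferentiableAt ℂ F s ∧ ‖F s‖ ≤ C * (1 + ‖s‖) ^ κ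
  prod : ∀ s : ℂ, (m : ℝ) + 1 / 2 < s.re →
    HasProd (fun p : Nat.Primes => (∏ j, (1 - α p j * (p : ℂ) ^ (-s)))⁻¹) (F s)

/-- the data of the theorems -/
theorem mc (R : Roots m α) (hF : Temp m α F) :
    ∃ (G₀ : ℂ → ℂ) (k κ : ℕ) (η C : ℝ),
      Mc nP (aM m α) (fun s => F (((m : ℝ) : ℂ) + s)) G₀ k κ η C := by
  refine Q5.VA.temp_data (c := (m : ℝ)) R.sys R.real_z ⟨?_, fun s hs => ?_⟩
  · obtain ⟨η, C, κ, hη, h⟩ := hF.cont
    exact ⟨η, C, 0, κ, F, hη, h, fun s _ _ => by rw [pow_zero, one_mul]⟩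
  · exact (hF.prod s hs).congr_fun fun p => factorM p s

/-! ### the products and the error terms -/

/-- `P*(x) = exp (- ∑_{p^k ≤ x} (∑_j α_{p,j}^k)/(k p^{mk}))` -/
noncomputable def pStar (m : ℤ) (α : Nat.Primes → Fin n → ℂ) (x : ℝ) : ℝ :=
  Real.exp (-∑ᶠ (z : Nat.Primes × ℕ) (_ : (z.1 : ℝ) ^ (z.2 + 1) ≤ x),
    (∑ j, α z.1 j ^ (z.2 + 1)).re / (((z.2 : ℝ) + 1) * ((z.1 : ℝ) ^ m) ^ (z.2 + 1)))

/-- `P(x) = ∏_{p ≤ x} |∏_j (1 - α_{p,j} p^(-m))|` -/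
noncomputable def pOrig (m : ℤ) (α : Nat.Primes → Fin n → ℂ) (x : ℝ) : ℝ :=
  ∏ᶠ (p : Nat.Primes) (_ : (p : ℝ) ≤ x), ‖∏ j, (1 - α p j * (p : ℂ) ^ (-m))‖

/-- `∑_{√x < p ≤ x} (∑_j α_{p,j}²)/(2 p^{2m})` -/
noncomputable def sqs (m : ℤ) (α : Nat.Primes → Fin n → ℂ) (x : ℝ) : ℝ :=
  ∑ᶠ (p : Nat.Primes) (_ : √x < (p : ℝ) ∧ (p : ℝ) ≤ x),
    (∑ j, α p j ^ 2).re / (2 * ((p : ℝ) ^ m) ^ 2)

/-- `log (A P*(x) / (e^γ log x)^ρ)` -/
noncomputable def dStar (m : ℤ) (α : Nat.Primes → Fin n → ℂ) (ρ A x : ℝ) : ℝ :=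
  Real.log (A * pStar m α x / (Real.exp Real.eulerMascheroniConstant * Real.log x) ^ ρ)

/-- `log (A e^c P(x) / (e^γ log x)^ρ)` -/
noncomputable def dOrig (m : ℤ) (α : Nat.Primes → Fin n → ℂ) (ρ A c x : ℝ) : ℝ :=
  Real.log (A * Real.exp c * pOrig m α x /
    (Real.exp Real.eulerMascheroniConstant * Real.log x) ^ ρ)

theorem log_star (x : ℝ) : Real.log (pStar m α x) = -Pl nP (aM m α) x := by
  unfold pStar Pl
  rw [Real.log_exp]
  congr 1
  refine finsum_congr fun z => finsum_congr fun _ => ?_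
  rw [cP_M]

theorem log_orig (R : Roots m α) (x : ℝ) : Real.log (pOrig m α x) = Pv nP (aM m α) x := by
  have E := R.sys
  have hfin : {p : Nat.Primes | (p : ℝ) ≤ x}.Finite := E.fin_le x
  have h2 : pOrig m α x = ∏ p ∈ hfin.toFinset, ‖∏ j, (1 - α p j * (p : ℂ) ^ (-m))‖ :=
    finprod_mem_eq_finite_toFinset_prod _ hfin
  rw [h2, Real.log_prod fun p _ => (R.fac_pos p).ne', Pool.Agent.Q5.MS.pv_eq E]
  refine Finset.sum_congr rfl fun p _ => ?_
  rw [R.cv_eq]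

theorem orig_pos (R : Roots m α) (x : ℝ) : 0 < pOrig m α x := by
  unfold pOrig
  exact finprod_mem_induction (fun y : ℝ => 0 < y) one_pos (fun x y hx hy => mul_pos hx hy)
    fun p _ => R.fac_pos p

theorem sqs_eq : sqs m α = Sq nP (aM m α) := by
  funext x
  unfold sqs Sq
  refine finsum_congr fun p => finsum_congr fun _ => ?_
  rw [cP_M (p, 1)]
  norm_num

theorem dStar_eq {ρ A x : ℝ} (hA : 0 < A) (hx : Real.exp 1 ≤ x) :
    dStar m α ρ A x = -DvR nP (aM m α) ρ A x := by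
  have hl : 0 < Real.log x := by linarith [Pool.Agent.TH270.MS.one_le_log hx]
  have h1 : 0 < Real.exp Real.eulerMascheroniConstant * Real.log x :=
    mul_pos (Real.exp_pos _) hl
  have h2 := Real.rpow_pos_of_pos h1 ρ
  have h3 : 0 < pStar m α x := Real.exp_pos _
  unfold dStar
  rw [Real.log_div (mul_pos hA h3).ne' h2.ne', Real.log_mul hA.ne'
    h3.ne', log_star, Real.log_rpow h1, Real.log_mul (Real.exp_pos _).ne' hl.ne',
    Real.log_exp]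
  unfold DvR
  ring

theorem dOrig_eq (R : Roots m α) {ρ A c x : ℝ} (hA : 0 < A) (hx : Real.exp 1 ≤ x) :
    dOrig m α ρ A c x = DvP nP (aM m α) ρ A c x := by
  have hl : 0 < Real.log x := by linarith [Pool.Agent.TH270.MS.one_le_log hx]
  have h6 : 0 < Real.exp Real.eulerMascheroniConstant * Real.log x :=
    mul_pos (Real.exp_pos _) hl
  have h7 := Real.rpow_pos_of_pos h6 ρ
  have h8 := orig_pos R x
  unfold dOrig DvP
  rw [Real.log_div (by positivity) h7.ne', Real.log_mul (by positivity) h8.ne',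
    Real.log_mul hA.ne' (Real.exp_pos c).ne', Real.log_exp, log_orig R,
    Real.log_rpow h6, Real.log_mul (Real.exp_pos _).ne' hl.ne', Real.log_exp]
  ring

/-- the error terms considered -/
def IsErr (m : ℤ) (α : Nat.Primes → Fin n → ℂ) (ρ A : ℝ) (δ : ℝ → ℝ) : Prop :=
  δ = dStar m α ρ A ∨ ∃ c : ℝ, Tendsto (fun x : ℝ => Real.log x * (sqs m α x - c)) atTop (𝓝 0) ∧
    δ = dOrig m α ρ A c

/-- no zeros to the right of the centre -/
def RHm (m : ℤ) (F : ℂ → ℂ) : Prop := ∀ s : ℂ, (m : ℝ) < s.re → F s ≠ 0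

/-- `ρ` is the order at the centre, and `F(s)/(s - m)^ρ → A` -/
def LeadM (m : ℤ) (F : ℂ → ℂ) (ρ A : ℝ) : Prop :=
  ∃ r : ℕ, ρ = r ∧ Tendsto (fun s : ℂ => F s / (s - m) ^ r) (𝓝[≠] (m : ℂ)) (𝓝 (A : ℂ))

/-- the order of vanishing at `m + it` -/
noncomputable def multM (m : ℤ) (F : ℂ → ℂ) (t : ℝ) : ℕ := (analyticOrderAt F (m + t * I)).toNat

theorem lim_shift (F : ℂ → ℂ) (c : ℂ) (e : ℤ) (A : ℂ) :
    Tendsto (fun s : ℂ => F (c + s) / s ^ e) (𝓝[≠] 0) (𝓝 A) ↔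
      Tendsto (fun s : ℂ => F s / (s - c) ^ e) (𝓝[≠] c) (𝓝 A) := by
  have h1 : Tendsto (fun s : ℂ => c + s) (𝓝[≠] 0) (𝓝[≠] c) := by
    refine tendsto_nhdsWithin_iff.2 ⟨?_, ?_⟩
    · have h1 : Tendsto (fun s : ℂ => c + s) (𝓝 0) (𝓝 (c + 0)) :=
        (continuous_const.add continuous_id).tendsto _
      rw [add_zero] at h1
      exact h1.mono_left nhdsWithin_le_nhds
    · filter_upwards [self_mem_nhdsWithin] with s hs
      have hs0 : s ≠ 0 := hs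
      show c + s ≠ c
      simpa using hs0
  have h2 : Tendsto (fun s : ℂ => s - c) (𝓝[≠] c) (𝓝[≠] 0) := by
    refine tendsto_nhdsWithin_iff.2 ⟨?_, ?_⟩
    · have h1 : Tendsto (fun s : ℂ => s - c) (𝓝 c) (𝓝 (c - c)) :=
        (continuous_id.sub continuous_const).tendsto _
      rw [sub_self] at h1
      exact h1.mono_left nhdsWithin_le_nhds
    · filter_upwards [self_mem_nhdsWithin] with s hs
      have hs0 : s ≠ c := hs
      show s - c ≠ 0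
      exact sub_ne_zero.2 hs0
  constructor
  · intro h
    refine (h.comp h2).congr fun s => ?_
    simp only [Function.comp_apply, add_sub_cancel]
  · intro h
    refine (h.comp h1).congr fun s => ?_
    simp only [Function.comp_apply, add_sub_cancel_left]

theorem Temp.ana (hF : Temp m α F) {s : ℂ} (hs : (m : ℝ) ≤ s.re) : AnalyticAt ℂ F s := by
  obtain ⟨η, C, κ, hη, h⟩ := hF.cont
  have hU : IsOpen {s : ℂ | (m : ℝ) - η < s.re} := isOpen_lt continuous_const Complex.continuous_re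
  exact (DifferentiableOn.analyticOnNhd (fun z hz => (h z hz).1.differentiableWithinAt) hU) s
    (show (m : ℝ) - η < s.re by linarith)

/-- a limit with a negative exponent is impossible for a function analytic at the point -/
theorem int_nonneg {F : ℂ → ℂ} {c : ℂ} (hF : AnalyticAt ℂ F c) {e : ℤ} {A : ℂ} (hA : A ≠ 0)
    (h : Tendsto (fun s : ℂ => F s / (s - c) ^ e) (𝓝[≠] c) (𝓝 A)) : 0 ≤ e := by
  by_contra hneg
  push Not at hneg
  obtain ⟨k, hk⟩ : ∃ k : ℕ, e = -((k : ℤ) + 1) := ⟨(-e - 1).toNat, by omega⟩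
  have h1 : Tendsto (fun s : ℂ => F s * (s - c) ^ (k + 1)) (𝓝[≠] c) (𝓝 (F c * (c - c) ^ (k + 1))) :=
    ((hF.continuousAt.mul (by fun_prop)).tendsto).mono_left nhdsWithin_le_nhds
  have h2 : Tendsto (fun s : ℂ => F s * (s - c) ^ (k + 1)) (𝓝[≠] c) (𝓝 A) := by
    refine h.congr fun s => ?_
    rw [hk, zpow_neg, div_inv_eq_mul]
    norm_cast
  have h3 := tendsto_nhds_unique h1 h2
  rw [sub_self, zero_pow (by omega), mul_zero] at h3
  exact hA h3.symm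

theorem lead_iff (hF : Temp m α F) (ρ : ℝ) {A : ℝ} (hA : 0 < A) : RHm m F ∧ LeadM m F ρ A ↔
    ((∀ s : ℂ, 0 < s.re → F (((m : ℝ) : ℂ) + s) ≠ 0) ∧
      ∃ e : ℤ, ρ = e ∧ Tendsto (fun s => F (((m : ℝ) : ℂ) + s) / s ^ e) (𝓝[≠] 0) (𝓝 (A : ℂ))) := by
  have hmc : ((m : ℝ) : ℂ) = (m : ℂ) := by push_cast; rfl
  rw [Q5.VA.zeros_shiftC]
  simp only [lim_shift]
  rw [hmc]
  refine and_congr_right fun _ => ?_
  unfold LeadM
  constructor
  · rintro ⟨r, h1, h2⟩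
    refine ⟨(r : ℤ), by rw [h1]; push_cast; rfl, ?_⟩
    simpa only [zpow_natCast] using h2
  · rintro ⟨e, h1, h2⟩
    have he : 0 ≤ e := int_nonneg (hF.ana (s := (m : ℂ)) (by simp)) (by exact_mod_cast hA.ne') h2
    obtain ⟨r, rfl⟩ := Int.eq_ofNat_of_zero_le he
    refine ⟨r, by rw [h1]; push_cast; rfl, ?_⟩
    simpa only [zpow_natCast] using h2

theorem mu_M (m : ℤ) (F : ℂ → ℂ) (t : ℝ) :
    Pool.Agent.Q5.BP.mu (fun s => F (((m : ℝ) : ℂ) + s)) t = multM m F t := by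
  have hmc : ((m : ℝ) : ℂ) = (m : ℂ) := by push_cast; rfl
  rw [Pool.Agent.Q5.BP.mu_shift F ((m : ℝ) : ℂ) t, hmc]
  rfl

/-- everything about one error term -/
theorem err (R : Roots m α) (hF : Temp m α F) {ρ A : ℝ} (hA : 0 < A) {δ : ℝ → ℝ}
    (hδ : IsErr m α ρ A δ) :
    BM (fun x => Real.log x * δ x) ∧
    List.TFAE [RHm m F ∧ LeadM m F ρ A, BSq δ,
      ∃ V : ℝ, HasSum (fun t : ℝ => ((multM m F t : ℝ) / t) ^ 2) V ∧ Tendsto (MSq δ) atTop (𝓝 V)] ∧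
    (RHm m F ∧ LeadM m F ρ A → ∀ t : ℝ,
      Tendsto (FB δ t) atTop (𝓝 (-((multM m F t : ℂ) * I / t)))) ∧
    (RHm m F ∧ LeadM m F ρ A → ∃ V : ℝ, HasSum (fun t : ℝ => ((multM m F t : ℝ) / t) ^ 2) V ∧
      Par (fun u => (cut (fun x => Real.log x * δ x) u : ℂ)) (cm (multM m F)) V) := by
  obtain ⟨G₀, k, κ, η, C, H⟩ := mc R hF
  have key : BM (fun x => Real.log x * δ x) → List.TFAE [RHm m F ∧ LeadM m F ρ A, BSq δ,
      ∃ V : ℝ, HasSum (fun t : ℝ => ((multM m F t : ℝ) / t) ^ 2) V ∧ Tendsto (MSq δ) atTop (𝓝 V)] →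
      (RHm m F ∧ LeadM m F ρ A → ∀ t : ℝ,
        Tendsto (FB δ t) atTop (𝓝 (-((multM m F t : ℂ) * I / t)))) →
      BM (fun x => Real.log x * δ x) ∧
    List.TFAE [RHm m F ∧ LeadM m F ρ A, BSq δ,
      ∃ V : ℝ, HasSum (fun t : ℝ => ((multM m F t : ℝ) / t) ^ 2) V ∧ Tendsto (MSq δ) atTop (𝓝 V)] ∧
    (RHm m F ∧ LeadM m F ρ A → ∀ t : ℝ,
      Tendsto (FB δ t) atTop (𝓝 (-((multM m F t : ℂ) * I / t)))) ∧
    (RHm m F ∧ LeadM m F ρ A → ∃ V : ℝ, HasSum (fun t : ℝ => ((multM m F t : ℝ) / t) ^ 2) V ∧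
      Par (fun u => (cut (fun x => Real.log x * δ x) u : ℂ)) (cm (multM m F)) V) := by
    intro hW t r
    exact ⟨hW, t, r, fun h => par_of_cm hW ((t.out 0 2).1 h) (r h)⟩
  rcases hδ with rfl | ⟨c, hc, rfl⟩
  · obtain ⟨t, r⟩ := Pool.Agent.Q5.BP.pack H ρ hA (lead_iff hF ρ hA) (mu_M m F)
      (f := dStar m α ρ A) fun y hy => dStar_eq hA hy
    refine key ?_ t r
    have h1 : BM fun x => Real.log x * ((-1) * DvR nP (aM m α) ρ A x) :=
      bm_log.mul ((BM.const (-1)).mul (bm_dvR H ρ A))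
    refine Pool.Agent.Q5.OM.bm_congr h1 fun y hy => ?_
    rw [dStar_eq hA hy, neg_one_mul]
  · obtain ⟨t, r⟩ := Pool.Agent.Q5.BP.packP H ρ hA (lead_iff hF ρ hA) (mu_M m F)
      (by rw [← sqs_eq]; exact hc) (f := dOrig m α ρ A c) fun y hy => dOrig_eq R hA hy
    refine key ?_ t r
    refine Pool.Agent.Q5.OM.bm_congr (bm_log.mul (bm_dvP H ρ A c)) fun y hy => ?_
    rw [dOrig_eq R hA hy]

/-- under the Riemann hypothesis the leading coefficient exists and is positive -/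
theorem lead_exists (R : Roots m α) (hF : Temp m α F) (h : RHm m F) :
    ∃ (r : ℕ) (A : ℝ), 0 < A ∧
      Tendsto (fun s : ℂ => F s / (s - m) ^ r) (𝓝[≠] (m : ℂ)) (𝓝 (A : ℂ)) := by
  have hmc : ((m : ℝ) : ℂ) = (m : ℂ) := by push_cast; rfl
  obtain ⟨G₀, k, κ, η, C, H⟩ := mc R hF
  obtain ⟨e, g, p, he, Q⟩ := H.cn
  have hz : ∀ s : ℂ, 0 < s.re → F (((m : ℝ) : ℂ) + s) ≠ 0 := (Q5.VA.zeros_shiftC F (m : ℝ)).2 h
  have hord := (Pool.Agent.TH270.MS.mero_of Q.hg Q.hg0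
    (Pool.Agent.TH270.MS.local_form H.hη H.hΨ Q.near)).2
  have t1 := Pool.Agent.Q5.MS.order_real H (((p : ℤ) - k : ℤ) : ℝ)
  have e1 := t1.out 0 1
  obtain ⟨A, hA, h1⟩ := e1.1 ⟨hz, (p : ℤ) - k, rfl, hord⟩
  have t2 := Pool.Agent.Q5.MS.lead_real H (((p : ℤ) - k : ℤ) : ℝ) hA
  have e2 := t2.out 1 0
  have h2 := e2.1 h1
  obtain ⟨-, r, hr, h3⟩ := (lead_iff hF _ hA).2 h2
  exact ⟨r, A, hA, h3⟩

end Pool.Agent.Q5.DC
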