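import Pool.Agent.H21.L.R_pool_sql_team_seeded_2aa45f1a.Q5.DC.Mot

/-!
# Motives with real coefficients, given by the polynomials of the Euler factors
-/

set_option autoImplicit false

open MeasureTheory Filter Topology Set Complex ComplexConjugate

namespace Pool.Agent.Q5.DC

/-- a product of linear factors with real coefficients has real power sums (proof of helper45, `Q45.ML.Real`) -/
theorem real_sums {n : ℕ} {β : Fin n → ℂ}
    (h : (∏ j, (1 - Polynomial.C (β j) * Polynomial.X)).map (starRingEnd ℂ) =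
      ∏ j, (1 - Polynomial.C (β j) * Polynomial.X)) (k : ℕ) : (∑ j, β j ^ k).im = 0 := by
  have h1 : ∀ x : ℂ, ∏ j, (1 - conj (β j) * x) = ∏ j, (1 - β j * x) := by
    intro x
    have := congrArg (Polynomial.eval x) h
    rw [Polynomial.map_prod, Polynomial.eval_prod, Polynomial.eval_prod] at this
    simpa using this
  have h2 : ∀ y : ℂ, y ≠ 0 → ∏ j, (y - conj (β j)) = ∏ j, (y - β j) := by
    intro y hy
    have h3 := h1 y⁻¹
    have e : ∀ b : Fin n → ℂ, ∏ j, (y - b j) = y ^ n * ∏ j, (1 - b j * y⁻¹) := by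
      intro b
      have : ∀ j, y - b j = y * (1 - b j * y⁻¹) := by
        intro j
        field_simp
      simp only [this]
      rw [Finset.prod_mul_distrib, Finset.prod_const, Finset.card_univ, Fintype.card_fin]
    rw [e, e, h3]
  have h3 : ∏ j, (Polynomial.X - Polynomial.C (conj (β j))) =
      ∏ j, (Polynomial.X - Polynomial.C (β j)) := by
    refine Polynomial.eq_of_infinite_eval_eq _ _ (Set.Infinite.mono (s := {0}ᶜ) ?_ ?_)
    · intro y hy
      have := h2 y hy
      show Polynomial.eval y _ = Polynomial.eval y _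
      rw [Polynomial.eval_prod, Polynomial.eval_prod]
      simpa using this
    · exact (Set.finite_singleton (0 : ℂ)).infinite_compl
  have h4 := congrArg Polynomial.roots h3
  rw [Polynomial.roots_prod _ _ (Finset.prod_ne_zero_iff.2 fun j _ => Polynomial.X_sub_C_ne_zero _),
    Polynomial.roots_prod _ _ (Finset.prod_ne_zero_iff.2 fun j _ => Polynomial.X_sub_C_ne_zero _)] at h4
  simp only [Polynomial.roots_X_sub_C] at h4
  have h5 := congrArg (fun s : Multiset ℂ => (s.map fun z => z ^ k).sum) h4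
  simp only [Multiset.bind_singleton, Multiset.map_map, Function.comp_def] at h5
  have h6 : ∑ j, conj (β j) ^ k = ∑ j, β j ^ k := h5
  have h7 : conj (∑ j, β j ^ k) = ∑ j, β j ^ k := by
    rw [map_sum, ← h6]
    simp
  exact Complex.conj_eq_iff_im.1 h7

variable {F : Type} [Field F] {n : ℕ}

/-- the value of the Euler factor -/
theorem eval_fac {τ : F →+* ℂ} {P : Polynomial F} {a : Fin n → ℂ}
    (h : P.map τ = ∏ j, (1 - Polynomial.C (a j) * Polynomial.X)) (z : ℂ) :
    P.eval₂ τ z = ∏ j, (1 - a j * z) := by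
  rw [← Polynomial.eval_map, h, Polynomial.eval_prod]
  simp

/-- the roots of a motive with real coefficients -/
theorem roots_of {m : ℤ} {τ : F →+* ℂ} (hreal : ∀ x : F, (τ x).im = 0) {P : Nat.Primes → Polynomial F}
    {a : Nat.Primes → Fin n → ℂ}
    (h : ∀ p, (P p).map τ = ∏ j, (1 - Polynomial.C (a p j) * Polynomial.X) ∧
      ∀ j, ‖a p j‖ ≤ (p : ℝ) ^ ((m : ℝ) - 1 / 2)) : Roots m a where
  le := fun p => (h p).2
  real := fun p => real_sums (by
    rw [← (h p).1, Polynomial.map_map]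
    congr 1
    ext x
    exact Complex.conj_eq_iff_im.2 (hreal x))

/-- the `L`-function -/
theorem temp_of {m : ℤ} {τ : F →+* ℂ} {P : Nat.Primes → Polynomial F} {a : Nat.Primes → Fin n → ℂ}
    {L : ℂ → ℂ}
    (h : ∀ p, (P p).map τ = ∏ j, (1 - Polynomial.C (a p j) * Polynomial.X) ∧
      ∀ j, ‖a p j‖ ≤ (p : ℝ) ^ ((m : ℝ) - 1 / 2))
    (hL : (∃ (η C : ℝ) (κ : ℕ), 0 < η ∧
      ∀ s : ℂ, m - η < s.re → DifferentiableAt ℂ L s ∧ ‖L s‖ ≤ C * (1 + ‖s‖) ^ κ) ∧
      ∀ s : ℂ, (m : ℝ) + 1 / 2 < s.re →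
        HasProd (fun p : Nat.Primes => (Polynomial.eval₂ τ ((p : ℂ) ^ (-s)) (P p))⁻¹) (L s)) :
    Temp m a L where
  cont := hL.1
  prod := fun s hs => (hL.2 s hs).congr_fun fun p => by rw [eval_fac (h p).1]

/-- the value at the centre under the Riemann hypothesis -/
theorem value_of {m : ℤ} {a : Nat.Primes → Fin n → ℂ} {L : ℂ → ℂ} (hL : Temp m a L) {A : ℝ} :
    LeadM m L 0 A ↔ L m = A := by
  have hc : Tendsto L (𝓝[≠] (m : ℂ)) (𝓝 (L m)) :=
    ((hL.ana (s := (m : ℂ)) (by simp)).continuousAt.tendsto).mono_left nhdsWithin_le_nhds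
  unfold LeadM
  constructor
  · rintro ⟨r, h1, h2⟩
    have hr : r = 0 := by exact_mod_cast h1.symm
    rw [hr] at h2
    simp only [pow_zero, div_one] at h2
    exact tendsto_nhds_unique hc h2
  · intro h
    refine ⟨0, by simp, ?_⟩
    simp only [pow_zero, div_one]
    rw [← h]
    exact hc

/-- a positive order gives the value zero -/
theorem zero_of {m : ℤ} {a : Nat.Primes → Fin n → ℂ} {L : ℂ → ℂ} (hL : Temp m a L) {ρ A : ℝ}
    (hρ : 0 < ρ) (h : LeadM m L ρ A) : L m = 0 := by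
  have hc : Tendsto L (𝓝[≠] (m : ℂ)) (𝓝 (L m)) :=
    ((hL.ana (s := (m : ℂ)) (by simp)).continuousAt.tendsto).mono_left nhdsWithin_le_nhds
  obtain ⟨r, h1, h2⟩ := h
  have hr : r ≠ 0 := by
    rintro rfl
    simp at h1
    linarith
  have h3 : Tendsto (fun s : ℂ => (s - m) ^ r) (𝓝[≠] (m : ℂ)) (𝓝 0) := by
    have h4 : Tendsto (fun s : ℂ => (s - m) ^ r) (𝓝 (m : ℂ)) (𝓝 (((m : ℂ) - m) ^ r)) := by
      have : Continuous fun s : ℂ => (s - m) ^ r := by fun_prop
      exact this.tendsto _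
    rw [sub_self, zero_pow hr] at h4
    exact h4.mono_left nhdsWithin_le_nhds
  have h5 := h2.mul h3
  rw [mul_zero] at h5
  refine tendsto_nhds_unique hc (h5.congr' ?_)
  filter_upwards [self_mem_nhdsWithin] with s hs
  have hs0 : s - m ≠ 0 := sub_ne_zero.2 hs
  field_simp

end Pool.Agent.Q5.DC
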